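import Pool.Agent.Helper16.AZ.Stmts

open Finset Filter MeasureTheory Topology
open scoped ComplexConjugate InnerProductSpace

namespace Pool.Agent.Helper16.AZ

open Pool.Agent.Helper16.MD (MS PB Am RW Rich)
open UnitAddTorus (mFourier)

theorem asy_lim (a : ℝ) (ha : 0 < a) : ∀ᶠ i : ℕ in atTop, 8 * ((i : ℝ) + 1) / 2 ^ i ≤ a := by
  have h1 := tendsto_pow_const_div_const_pow_of_one_lt 1 (r := (2 : ℝ)) (by norm_num)
  have h2 := tendsto_pow_const_div_const_pow_of_one_lt 0 (r := (2 : ℝ)) (by norm_num)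
  have h3 := (h1.add h2).const_mul 8
  rw [add_zero, mul_zero] at h3
  filter_upwards [h3.eventually (gt_mem_nhds ha)] with i hi
  have e1 : 8 * ((i : ℝ) + 1) / 2 ^ i = 8 * ((i : ℝ) ^ 1 / 2 ^ i + (i : ℝ) ^ 0 / 2 ^ i) := by
    rw [pow_one, pow_zero]
    ring
  rw [e1]
  exact hi.le

theorem st_ASY (hM : ST_MOD) : ST_ASY := by
  intro r d β φ c Cn κ hφ hLM hc hc1 hκ
  set e1 : ℝ := κ / 32 with he1
  have he10 : 0 < e1 := by positivity
  set δ : ℝ := min 1 (κ / (8 * ((r : ℝ) + 1))) with hδ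
  have hδ0 : 0 < δ := by
    rw [hδ]
    exact lt_min one_pos (by positivity)
  have hδ1 : δ ≤ 1 := min_le_left _ _
  have hδ2 : δ ≤ κ / (8 * ((r : ℝ) + 1)) := min_le_right _ _
  have hδ3 : 2 * (r : ℝ) * δ ^ 2 ≤ κ / 4 := by
    have hr : (0 : ℝ) ≤ r := Nat.cast_nonneg r
    rw [le_div_iff₀ (by positivity)] at hδ2
    nlinarith [mul_nonneg hr hδ0.le]
  have hlog : 0 < Real.log 2 := Real.log_pos (by norm_num)
  set e2 : ℝ := δ * e1 ^ 2 * Real.log 2 ^ 2 / (32 * ((Cn : ℝ) + 1)) with he2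
  have he20 : 0 < e2 := by positivity
  obtain ⟨t₀, ht0, ht1, hLMt⟩ := hLM e2 he20
  have huc := CompactSpace.uniformContinuous_of_continuous hc
  rw [Metric.uniformContinuous_iff] at huc
  obtain ⟨δc, hδc0, hδc⟩ := huc (δ / 4) (by positivity)
  obtain ⟨M0, hM0⟩ := exists_pow_lt_of_lt_one (lt_min ht0 hδc0) (show (1 / 2 : ℝ) < 1 by norm_num)
  have ev1 := asy_lim (κ / 4) (by positivity)
  have ev2 : ∀ᶠ i : ℕ in atTop, 2 * ((M0 : ℝ) + 2) / e1 ≤ (2 : ℝ) ^ i :=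
    (tendsto_pow_atTop_atTop_of_one_lt (by norm_num : (1 : ℝ) < 2)).eventually_ge_atTop _
  obtain ⟨I₀, hI₀⟩ := eventually_atTop.1 (ev1.and ev2)
  refine ⟨I₀, fun i hi => ?_⟩
  obtain ⟨h1, h2⟩ := hI₀ i hi
  rw [div_le_iff₀ he10] at h2
  have h2i : (0 : ℝ) < 2 ^ i := by positivity
  set m : ℕ := ⌊e1 * 2 ^ i⌋₊ with hm
  have hm1 : (m : ℝ) ≤ e1 * 2 ^ i := Nat.floor_le (by positivity)
  have hm2 : e1 * 2 ^ i < m + 1 := Nat.lt_floor_add_one _
  have hm3 : e1 * 2 ^ i / 2 ≤ m := by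
    have : (0 : ℝ) ≤ M0 := Nat.cast_nonneg M0
    linarith
  have hm4 : M0 ≤ m := by
    have : (M0 : ℝ) ≤ m := by linarith
    exact_mod_cast this
  have hm0 : (0 : ℝ) < m := by
    have : (0 : ℝ) ≤ M0 := Nat.cast_nonneg M0
    linarith
  have htm : (1 : ℝ) / 2 ^ m < min t₀ δc := by
    refine lt_of_le_of_lt ?_ hM0
    rw [one_div_pow]
    apply one_div_le_one_div_of_le (by positivity)
    exact pow_le_pow_right₀ (by norm_num) hm4
  have htm0 : (0 : ℝ) < 1 / 2 ^ m := by positivity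
  refine ⟨m, δ, hδ0.le, ?_, ?_⟩
  · have e3 : 8 * ((i : ℝ) + 1 + m) / 2 ^ i = 8 * ((i : ℝ) + 1) / 2 ^ i + 8 * m / 2 ^ i := by ring
    have e4 : 8 * (m : ℝ) / 2 ^ i ≤ κ / 4 := by
      rw [div_le_iff₀ h2i]
      have : e1 * 2 ^ i * 8 = κ / 4 * 2 ^ i := by rw [he1]; ring
      linarith
    rw [e3]
    linarith
  · intro p hp h hh h' hh' θ s hs
    have hp2 : p ≤ 2 ^ (i + 1) := (mem_Ioc.1 (mem_filter.1 hp).1).2
    have hK : ∀ x, x < Cn * 2 ^ i → p * x ≤ 2 ^ (i + 1) * (Cn * 2 ^ i) := fun x hx =>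
      Nat.mul_le_mul hp2 hx.le
    have hlogt : Real.log (1 / 2 ^ m) ^ 2 = (m : ℝ) ^ 2 * Real.log 2 ^ 2 := by
      rw [one_div, Real.log_inv, Real.log_pow]
      ring
    have h3 := hM r d β φ c (1 / 2 ^ m) (e2 / ((m : ℝ) ^ 2 * Real.log 2 ^ 2)) (δ / 4)
      (2 ^ (i + 1) * (Cn * 2 ^ i)) (p * h) (p * h') hφ hc1 (by
        intro θ θ' hθ
        refine ⟨?_, ?_⟩
        · have := hLMt (1 / 2 ^ m) htm0 (htm.le.trans (min_le_left _ _)) θ θ' hθ
          rwa [hlogt] at this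
        · have := hδc (lt_of_le_of_lt hθ (lt_of_lt_of_le htm (min_le_right _ _)))
          rw [dist_eq_norm] at this
          exact this.le) (hK h hh) (hK h' hh') θ s hs
    refine h3.trans ?_
    have h4 : ((2 ^ (i + 1) * (Cn * 2 ^ i) : ℕ) : ℝ) * (e2 / ((m : ℝ) ^ 2 * Real.log 2 ^ 2))
        ≤ δ / 4 := by
      push_cast
      rw [← mul_div_assoc, div_le_iff₀ (by positivity)]
      have h5 : (e1 * 2 ^ i / 2) ^ 2 ≤ (m : ℝ) ^ 2 := pow_le_pow_left₀ (by positivity) hm3 2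
      have h6 : (2 : ℝ) ^ (i + 1) * (Cn * 2 ^ i) * e2
          = δ / 4 * ((e1 * 2 ^ i / 2) ^ 2 * Real.log 2 ^ 2) * ((Cn : ℝ) / (Cn + 1)) := by
        rw [he2, pow_succ]
        field_simp
        ring
      have h7 : (Cn : ℝ) / (Cn + 1) ≤ 1 := by
        rw [div_le_one (by positivity)]
        linarith
      rw [h6]
      calc δ / 4 * ((e1 * 2 ^ i / 2) ^ 2 * Real.log 2 ^ 2) * ((Cn : ℝ) / (Cn + 1))
          ≤ δ / 4 * ((e1 * 2 ^ i / 2) ^ 2 * Real.log 2 ^ 2) * 1 :=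
            mul_le_mul_of_nonneg_left h7 (by positivity)
        _ ≤ _ := by
          rw [mul_one]
          exact mul_le_mul_of_nonneg_left (mul_le_mul_of_nonneg_right h5 (by positivity))
            (by positivity)
    linarith

end Pool.Agent.Helper16.AZ
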